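import Pool.Agent.H12S.Pairs

/-!
# Spectral measures of the groups `G_ω`: the positions of new symbols

`N ω k` is the number of words of length `k` in the generators `a, b, c, d` which are the identity of
`G_ω`; `N ω k / 4 ^ k` is the `k`-th moment of the spectral measure `μ_ω`.
-/

set_option autoImplicit false

namespace Pool.Agent.Results.MP_2e40ce_al.FirstOccurrences

open Pool.Agent.H12S

/-- The generators `a, b, c, d` (numbers `0, 1, 2, 3`) of `G_ω` (as in the frozen statements). -/
def gen (ω : ℕ → Fin 3) (s : Fin 4) (v : List Bool) : List Bool :=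
  if s = 0 then v.set 0 (!(v.getD 0 false))
  else if (List.takeWhile id v).length + 1 < v.length ∧
      (ω (List.takeWhile id v).length).val ≠ 3 - s.val
    then v.set ((List.takeWhile id v).length + 1)
      (!(v.getD ((List.takeWhile id v).length + 1) false))
    else v

/-- The element of `G_ω` given by a word. -/
def E (ω : ℕ → Fin 3) (u : List (Fin 4)) : List Bool → List Bool :=
  (u.map (gen ω)).foldr (fun f g => f ∘ g) id

/-- The number of words of length `k` which are the identity of `G_ω`. -/
noncomputable def N (ω : ℕ → Fin 3) (k : ℕ) : ℕ :=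
  Nat.card {u : List (Fin 4) // u.length = k ∧ E ω u = id}

/-- `ω` is not eventually constant. -/
def NotEventuallyConstant (ω : ℕ → Fin 3) : Prop := ∀ (n : ℕ) (q : Fin 3), ∃ i, n ≤ i ∧ ω i ≠ q

/-- The number of different symbols among the first `m` symbols of `ω`. -/
def symbols (ω : ℕ → Fin 3) (m : ℕ) : ℕ := ((Finset.range m).image ω).card

theorem gen_zero (ω : ℕ → Fin 3) : gen ω 0 = fl := by
  funext v
  cases v with
  | nil => rfl
  | cons b t => simp [gen, fl]

theorem gen_pos (s : Fin 4) (hs : s ≠ 0) (q : Fin 3) (hq : q.val = 3 - s.val) (v : List Bool) :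
    ∀ ω : ℕ → Fin 3, gen ω s v = xx q ω v := by
  induction v with
  | nil =>
    intro ω
    rw [xx_nil]
    simp [gen]
  | cons b t ih =>
    intro ω
    cases b with
    | true =>
      rw [xx_true, ← ih]
      unfold gen
      rw [if_neg hs, if_neg hs]
      have h1 : (List.takeWhile id (true :: t)).length = (List.takeWhile id t).length + 1 := by
        simp
      rw [h1]
      by_cases h : (List.takeWhile id t).length + 1 < t.length ∧
          (ω ((List.takeWhile id t).length + 1)).val ≠ 3 - s.val
      · rw [if_pos ⟨by rw [List.length_cons]; omega, h.2⟩, if_pos h]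
        simp
      · rw [if_neg (fun h' => h ⟨by have := h'.1; rw [List.length_cons] at this; omega, h'.2⟩),
          if_neg h]
    | false =>
      rw [xx_false]
      unfold gen
      rw [if_neg hs]
      have h1 : (List.takeWhile id (false :: t)).length = 0 := by simp
      rw [h1]
      cases t with
      | nil => simp [fl]
      | cons c t =>
        by_cases h : ω 0 = q
        · have h2 : ¬ (0 + 1 < (false :: c :: t).length ∧ (ω 0).val ≠ 3 - s.val) := by
            rintro ⟨-, h3⟩
            exact h3 (by rw [h, hq])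
          rw [if_neg h2, if_pos h]
        · have h2 : 0 + 1 < (false :: c :: t).length ∧ (ω 0).val ≠ 3 - s.val := by
            refine ⟨by simp, fun h3 => h (Fin.ext ?_)⟩
            rw [h3, hq]
          rw [if_pos h2, if_neg h]
          simp [fl]

theorem gen_eq (ω : ℕ → Fin 3) (s : Fin 4) : gen ω s = ⇑(P ω s) := by
  funext v
  fin_cases s
  · exact congrFun (gen_zero ω) v
  · exact gen_pos 1 (by decide) 2 rfl v ω
  · exact gen_pos 2 (by decide) 1 rfl v ω
  · exact gen_pos 3 (by decide) 0 rfl v ω

theorem E_eq (ω : ℕ → Fin 3) (u : List (Fin 4)) : E ω u = ⇑((u.map (P ω)).prod) := by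
  induction u with
  | nil => rfl
  | cons s u ih =>
    have h1 : E ω (s :: u) = gen ω s ∘ E ω u := rfl
    rw [h1, ih, gen_eq, List.map_cons, List.prod_cons]
    rfl

theorem E_id_iff (ω : ℕ → Fin 3) (u : List (Fin 4)) : E ω u = id ↔ (u.map (P ω)).prod = 1 := by
  rw [E_eq]
  constructor
  · intro h
    ext1 v
    exact congrFun h v
  · intro h
    rw [h]
    rfl

theorem E_pow_iff (ω : ℕ → Fin 3) (u : List (Fin 4)) (k : ℕ) :
    (E ω u)^[k] = id ↔ (u.map (P ω)).prod ^ k = 1 := by
  rw [E_eq]
  have h1 : (⇑((u.map (P ω)).prod))^[k] = ⇑((u.map (P ω)).prod ^ k) := by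
    rw [Equiv.Perm.coe_pow]
  rw [h1]
  constructor
  · intro h
    ext1 v
    exact congrFun h v
  · intro h
    rw [h]
    rfl

theorem congr_E (ω : ℕ → Fin 3) (i j : ℕ) : N ω (2 ^ (i + j)) ≡
    Nat.card {v : List (Fin 4) // v.length = 2 ^ i ∧ (E ω v)^[2 ^ j] = id} [MOD 2 ^ (i + 1)] := by
  have h := congr_group (P ω) i j
  simp only [← E_id_iff, ← E_pow_iff] at h
  exact h

theorem mod_four (ω : ℕ → Fin 3) (hω : NotEventuallyConstant ω) (m : ℕ) :
    N ω (2 ^ (m + 2)) ≡ 2 + 2 * symbols ω m [MOD 4] := by
  have h1 := congr_group (P ω) 1 (m + 1)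
  rw [count_pairs ω hω m] at h1
  have h2 : N ω (2 ^ (m + 2)) = Nat.card {u : List (Fin 4) // u.length = 2 ^ (1 + (m + 1)) ∧
      (u.map (P ω)).prod = 1} := by
    have h3 : m + 2 = 1 + (m + 1) := by ring
    unfold N
    rw [h3]
    simp only [E_id_iff]
  rw [h2]
  refine h1.trans ?_
  change (10 + 2 * symbols ω m) % 4 = (2 + 2 * symbols ω m) % 4
  omega

theorem symbols_of_N (ω ω' : ℕ → Fin 3) (hω : NotEventuallyConstant ω)
    (hω' : NotEventuallyConstant ω') (h : ∀ k, N ω k = N ω' k) (m : ℕ) :
    symbols ω m = symbols ω' m := by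
  refine symbols_congr ω ω' (fun m => ?_) m
  have h1 := mod_four ω hω m
  rw [h] at h1
  exact h1.symm.trans (mod_four ω' hω' m)

/-- The pair of words `p` of length `n` separates: all not eventually constant `ω`, `ω'` with these
initial words have different spectral measures. -/
def Separates {n : ℕ} (p : Fin n → Fin 3 × Fin 3) : Prop :=
  ∀ ω ω' : ℕ → Fin 3, NotEventuallyConstant ω → NotEventuallyConstant ω' →
    (∀ i : Fin n, ω i = (p i).1 ∧ ω' i = (p i).2) → ∃ k, N ω k ≠ N ω' k

theorem separates_of {n : ℕ} (p : Fin n → Fin 3 × Fin 3) (h : ¬ agr n ∅ ∅ p) : Separates p := by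
  intro ω ω' hω hω' hp
  by_contra hcon
  push Not at hcon
  obtain ⟨m, hm⟩ := exists_of_not_agr n ∅ ∅ p ω ω' hp h
  apply hm
  rw [Finset.empty_union, Finset.empty_union]
  exact symbols_of_N ω ω' hω hω' hcon m

theorem card_separates (n : ℕ) :
    9 * 9 ^ n ≤ 10 * Nat.card {p : Fin n → Fin 3 × Fin 3 // Separates p} + 24 * 4 ^ n := by
  classical
  have h1 : Nat.card (Fin n → Fin 3 × Fin 3) =
      Nat.card {p : Fin n → Fin 3 × Fin 3 // agr n ∅ ∅ p} +
        Nat.card {p : Fin n → Fin 3 × Fin 3 // ¬ agr n ∅ ∅ p} := by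
    rw [← Nat.card_sum]
    exact Nat.card_congr (Equiv.sumCompl (fun p : Fin n → Fin 3 × Fin 3 => agr n ∅ ∅ p)).symm
  have h2 : Nat.card (Fin n → Fin 3 × Fin 3) = 9 ^ n := by
    rw [Nat.card_eq_fintype_card, Fintype.card_fun, Fintype.card_prod, Fintype.card_fin,
      Fintype.card_fin]
  have h3 : Nat.card {p : Fin n → Fin 3 × Fin 3 // agr n ∅ ∅ p} = cc n 0 :=
    count_agr n ∅ ∅ rfl
  have h4 : Nat.card {p : Fin n → Fin 3 × Fin 3 // ¬ agr n ∅ ∅ p} ≤
      Nat.card {p : Fin n → Fin 3 × Fin 3 // Separates p} := by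
    refine Nat.card_le_card_of_injective (fun p => ⟨p.1, separates_of p.1 p.2⟩) ?_
    intro p q h
    apply Subtype.ext
    have h6 := Subtype.ext_iff.1 h
    exact h6
  have h5 := cc_zero n
  rw [h2, h3] at h1
  omega

/-- Let `ω`, `ω'` be not eventually constant (the case in which the groups have intermediate
growth). `N ω (2 ^ (m + 2)) ≡ 2 + 2 · (number of different symbols among the first m)` modulo `4`,
so the spectral measures of `G_ω` and `G_ω'` are different whenever for some `m` the numbers of
different symbols among the first `m` symbols of `ω` and `ω'` are different; this settles the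
question for nine tenths of all pairs: of the `9 ^ n` pairs of words of length `n` at least
`(9/10) 9 ^ n - (12/5) 4 ^ n` are such that all pairs of sequences which begin with them have
different spectral measures. -/
theorem result :
    (∀ ω : ℕ → Fin 3, NotEventuallyConstant ω → ∀ m : ℕ,
      N ω (2 ^ (m + 2)) ≡ 2 + 2 * symbols ω m [MOD 4]) ∧
    (∀ ω ω' : ℕ → Fin 3, NotEventuallyConstant ω → NotEventuallyConstant ω' →
      (∃ m, symbols ω m ≠ symbols ω' m) → ∃ k, N ω k ≠ N ω' k) ∧
    (∀ n : ℕ, 9 * 9 ^ n ≤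
      10 * Nat.card {p : Fin n → Fin 3 × Fin 3 // Separates p} + 24 * 4 ^ n) := by
  refine ⟨mod_four, fun ω ω' hω hω' h => ?_, card_separates⟩
  by_contra hcon
  push Not at hcon
  obtain ⟨m, hm⟩ := h
  exact hm (symbols_of_N ω ω' hω hω' hcon m)

end Pool.Agent.Results.MP_2e40ce_al.FirstOccurrences
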